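import Pool.Agent.R79.LP4.Path

/-!
# The linear Turán number of the linear path with four edges

For every `r ≥ 3` and every `n`, a linear `r`-uniform hypergraph on `n` vertices without a copy of
`P_4^r` (the `r`-expansion of the path with four edges) has at most `(r + 1) n / r` hyperedges, and
it has exactly `(r + 1) n / r` hyperedges if and only if its vertices are partitioned into blocks of
size `r^2`, each spanning a Steiner system `S(2, r, r^2)`, with no other hyperedges.

Outline. `P_4^r`-free means that the intersection graph of the hyperedges has no induced path with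
four vertices, so every subfamily with at least two members is a union of two nonempty parts such
that no two members of different parts meet, or any two members of different parts meet. Let `ν` be
the dimension of the kernel of the transposed incidence matrix (weights of the hyperedges with sum
zero at every vertex). By induction over this decomposition `r ν ≤ n`, with equality only for
disjoint unions of affine planes; the number of hyperedges is at most `n + ν`. In the induction
step for families `A`, `B` whose members meet, the sums of the weights of `A` at the vertices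
and those of `B` have the inner product `σ(A) σ(B)`. If some kernel vector has `σ(A) ≠ 0`, this
gives a unit vector on the vertices with sum `1` on every hyperedge and total sum `r`, so that
`n ≥ r^2`, and the kernel has dimension at most `r`. Otherwise the kernel is the sum of the kernels
of `A` and `B`, and one of them is trivial (use the absolute values of kernel vectors).
-/

set_option autoImplicit false
open Finset

namespace Pool.Agent.Results.MP_d43ba4_co.LinearPathFour

/-- `E` is the set of hyperedges of a linear `r`-uniform hypergraph on `n` vertices. -/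
def IsLinear {n : ℕ} (r : ℕ) (E : Finset (Finset (Fin n))) : Prop :=
  (∀ e ∈ E, e.card = r) ∧ ∀ e ∈ E, ∀ f ∈ E, e ≠ f → (e ∩ f).card ≤ 1

/-- The vertices of `P_4^r`: the five vertices of the path, and `r - 2` new vertices for each of the
four edges. -/
abbrev PathVertex (r : ℕ) : Type := Fin 5 ⊕ (Fin 4 × Fin (r - 2))

/-- The hyperedges of `P_4^r`: the `i`-th edge of the path together with its new vertices. -/
def pathEdge (r : ℕ) (i : Fin 4) : Finset (PathVertex r) :=
  {Sum.inl i.castSucc, Sum.inl i.succ} ∪ univ.image fun j => Sum.inr (i, j)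

/-- The hypergraph contains a copy of `P_4^r`. -/
def ContainsPath {n : ℕ} (r : ℕ) (E : Finset (Finset (Fin n))) : Prop :=
  ∃ f : PathVertex r → Fin n, Function.Injective f ∧ ∀ i, (pathEdge r i).image f ∈ E

/-- The vertex set is partitioned into blocks of size `r^2`, each of which spans a Steiner system
`S(2, r, r^2)` (any two vertices of a block are in exactly one hyperedge), and there are no other
hyperedges (every hyperedge is contained in a block). -/
def IsSteinerUnion {n : ℕ} (r : ℕ) (E : Finset (Finset (Fin n))) : Prop :=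
  ∃ P : Finpartition (univ : Finset (Fin n)), (∀ B ∈ P.parts, B.card = r ^ 2) ∧
    (∀ B ∈ P.parts, ∀ x ∈ B, ∀ y ∈ B, x ≠ y → ∃! e, e ∈ E ∧ x ∈ e ∧ y ∈ e) ∧
    (∀ e ∈ E, ∃ B ∈ P.parts, e ⊆ B)

/-- `ex_r^lin(n, P_4^r)` -/
noncomputable def exLin (r n : ℕ) : ℕ :=
  sSup {m | ∃ E : Finset (Finset (Fin n)), IsLinear r E ∧ ¬ ContainsPath r E ∧ E.card = m}

theorem good {r n : ℕ} (hr : 3 ≤ r) {E : Finset (Finset (Fin n))} (hL : IsLinear r E)
    (hP : ¬ ContainsPath r E) : Pool.Agent.R79.LP4.Good r E := by
  refine ⟨hL.1, hL.2, ?_⟩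
  intro a ha b hb c hc d hd h1 h2 h3 h4 h5 h6
  exact hP (Pool.Agent.R79.LP4.make_path (by omega) hL.1 hL.2 ha hb hc hd h1 h2 h3 h4 h5 h6)

theorem bound {r n : ℕ} (hr : 3 ≤ r) {E : Finset (Finset (Fin n))} (hL : IsLinear r E)
    (hP : ¬ ContainsPath r E) : (E.card : ℝ) ≤ ((r : ℝ) + 1) * n / r ∧
      ((E.card : ℝ) = ((r : ℝ) + 1) * n / r ↔ IsSteinerUnion r E) := by
  have hG := good hr hL hP
  obtain ⟨h1, h2⟩ := Pool.Agent.R79.LP4.bound (by omega : 2 ≤ r) hG
  rw [Fintype.card_fin] at h1 h2
  have hr' : (0 : ℝ) < r := by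
    have : 0 < r := by omega
    exact_mod_cast this
  have key : (E.card : ℝ) = ((r : ℝ) + 1) * n / r ↔ r * E.card = (r + 1) * n := by
    rw [eq_div_iff hr'.ne']
    constructor
    · intro h
      have h3 : ((r * E.card : ℕ) : ℝ) = (((r + 1) * n : ℕ) : ℝ) := by push_cast; linarith
      exact_mod_cast h3
    · intro h
      have h3 : ((r * E.card : ℕ) : ℝ) = (((r + 1) * n : ℕ) : ℝ) := by exact_mod_cast h
      push_cast at h3
      linarith
  refine ⟨?_, ?_⟩
  · rw [le_div_iff₀ hr']
    have h3 : ((r * E.card : ℕ) : ℝ) ≤ (((r + 1) * n : ℕ) : ℝ) := by exact_mod_cast h1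
    push_cast at h3
    linarith
  · rw [key]
    constructor
    · intro h
      obtain ⟨h3, h4⟩ := h2 h
      exact Pool.Agent.R79.LP4.planes_of (by omega) hG h3 h4
    · intro h
      have := Pool.Agent.R79.LP4.card_of_planes (by omega : 2 ≤ r) hL.1 hL.2 h
      rwa [Fintype.card_fin] at this

theorem edges_disjoint {r : ℕ} {i j : Fin 4} (h1 : i.castSucc ≠ j.castSucc)
    (h2 : i.castSucc ≠ j.succ) (h3 : i.succ ≠ j.castSucc) (h4 : i.succ ≠ j.succ) (h5 : i ≠ j) :
    pathEdge r i ∩ pathEdge r j = ∅ := by
  rw [eq_empty_iff_forall_notMem]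
  rintro (k | ⟨k, l⟩) h
  · simp only [pathEdge, mem_inter, mem_union, mem_insert, mem_singleton, mem_image, mem_univ,
      true_and, Sum.inl.injEq, reduceCtorEq, exists_false, or_false] at h
    rcases h with ⟨rfl | rfl, h | h⟩
    · exact h1 h
    · exact h2 h
    · exact h3 h
    · exact h4 h
  · simp only [pathEdge, mem_inter, mem_union, mem_insert, mem_singleton, mem_image, mem_univ,
      true_and, Sum.inr.injEq, reduceCtorEq, false_or, Prod.mk.injEq] at h
    obtain ⟨⟨_, rfl, _⟩, ⟨_, h, _⟩⟩ := h
    exact h5 h.symm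

/-- a Steiner union contains no copy of `P_4^r` -/
theorem free_of_steiner {r n : ℕ} (hr : 3 ≤ r) {E : Finset (Finset (Fin n))} (hL : IsLinear r E)
    (hS : IsSteinerUnion r E) : ¬ ContainsPath r E := by
  rintro ⟨f, hf, h⟩
  have hne : ∀ (i j : Fin 4) (k : Fin 5), (k = i.castSucc ∨ k = i.succ) → (k = j.castSucc ∨ k = j.succ) →
      ((pathEdge r i).image f ∩ (pathEdge r j).image f).Nonempty := by
    intro i j k h1 h2
    refine ⟨f (Sum.inl k), mem_inter.2 ⟨mem_image_of_mem _ ?_, mem_image_of_mem _ ?_⟩⟩
    · unfold pathEdge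
      rw [mem_union, mem_insert, mem_singleton]
      rcases h1 with rfl | rfl <;> simp
    · unfold pathEdge
      rw [mem_union, mem_insert, mem_singleton]
      rcases h2 with rfl | rfl <;> simp
  have hemp : ∀ i j : Fin 4, i.castSucc ≠ j.castSucc → i.castSucc ≠ j.succ →
      i.succ ≠ j.castSucc → i.succ ≠ j.succ → i ≠ j →
      ¬ ((pathEdge r i).image f ∩ (pathEdge r j).image f).Nonempty := by
    intro i j h1 h2 h3 h4 h5
    rw [← image_inter _ _ hf, edges_disjoint h1 h2 h3 h4 h5, image_empty]
    exact not_nonempty_empty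
  obtain ⟨P, hP1, hP2, hP3⟩ := hS
  refine Pool.Agent.R79.LP4.planes_free (by omega : 2 ≤ r) hL.1 hL.2
    (Pool.Agent.R79.LP4.deg_of_planes (by omega : 2 ≤ r) hL.1 hL.2 ⟨P, hP1, hP2, hP3⟩)
    ⟨P, hP2, hP3⟩ (h 0) (h 1) (h 2) (h 3)
    (hne 0 1 1 (by decide) (by decide)) (hne 1 2 2 (by decide) (by decide))
    (hne 2 3 3 (by decide) (by decide))
    (hemp 0 2 (by decide) (by decide) (by decide) (by decide) (by decide))
    (hemp 0 3 (by decide) (by decide) (by decide) (by decide) (by decide)) ?_
  intro heq
  have h1 : f (Sum.inl 2) ∈ (pathEdge r 3).image f := by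
    rw [← heq]
    refine mem_image_of_mem _ ?_
    unfold pathEdge
    rw [mem_union, mem_insert]
    exact Or.inl (Or.inl rfl)
  have h2 : f (Sum.inl 2) ∈ (pathEdge r 1).image f := by
    refine mem_image_of_mem _ ?_
    unfold pathEdge
    rw [mem_union, mem_insert, mem_singleton]
    exact Or.inl (Or.inr rfl)
  exact hemp 1 3 (by decide) (by decide) (by decide) (by decide) (by decide)
    ⟨_, mem_inter.2 ⟨h2, h1⟩⟩

theorem exLin_mem (r n : ℕ) : ∃ E : Finset (Finset (Fin n)), IsLinear r E ∧
    ¬ ContainsPath r E ∧ E.card = exLin r n := by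
  refine Nat.sSup_mem (s := {m | ∃ E : Finset (Finset (Fin n)), IsLinear r E ∧
      ¬ ContainsPath r E ∧ E.card = m}) ⟨0, ∅, ⟨by simp, by simp⟩, ?_, card_empty⟩
      ⟨Fintype.card (Finset (Fin n)), ?_⟩
  · rintro ⟨f, -, h⟩
    exact absurd (h 0) (notMem_empty _)
  · rintro m ⟨E, -, -, rfl⟩
    exact card_le_univ E

theorem le_exLin {r n : ℕ} {E : Finset (Finset (Fin n))} (hL : IsLinear r E)
    (hP : ¬ ContainsPath r E) : E.card ≤ exLin r n := by
  refine le_csSup ⟨Fintype.card (Finset (Fin n)), ?_⟩ ⟨E, hL, hP, rfl⟩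
  rintro m ⟨E, -, -, rfl⟩
  exact card_le_univ E

/-- **The linear Turán number of `P_4^r`.** For every `r ≥ 3` and `n`: `ex_r^lin(n, P_4^r)` is at most
`(r + 1) n / r`; a linear `r`-uniform `P_4^r`-free hypergraph on `n` vertices has at most
`(r + 1) n / r` hyperedges, and exactly so many if and only if its vertex set is partitioned into
blocks of size `r^2`, each spanning a copy of `S(2, r, r^2)`, with no other hyperedges. All such
hypergraphs are `P_4^r`-free; so the bound is attained if and only if there is one. -/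
theorem result (r : ℕ) (hr : 3 ≤ r) (n : ℕ) :
    (exLin r n : ℝ) ≤ ((r : ℝ) + 1) * n / r ∧
    (∀ E : Finset (Finset (Fin n)), IsLinear r E → ¬ ContainsPath r E →
      (E.card : ℝ) ≤ ((r : ℝ) + 1) * n / r ∧
      ((E.card : ℝ) = ((r : ℝ) + 1) * n / r ↔ IsSteinerUnion r E)) ∧
    (∀ E : Finset (Finset (Fin n)), IsLinear r E → IsSteinerUnion r E → ¬ ContainsPath r E) ∧
    ((exLin r n : ℝ) = ((r : ℝ) + 1) * n / r ↔
      ∃ E : Finset (Finset (Fin n)), IsLinear r E ∧ IsSteinerUnion r E) := by
  obtain ⟨E, hL, hP, hE⟩ := exLin_mem r n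
  have h1 : (exLin r n : ℝ) ≤ ((r : ℝ) + 1) * n / r := by
    rw [← hE]
    exact (bound hr hL hP).1
  refine ⟨h1, fun E hL hP => bound hr hL hP, fun E hL hS => free_of_steiner hr hL hS, ?_, ?_⟩
  · intro h
    rw [← hE] at h
    exact ⟨E, hL, (bound hr hL hP).2.1 h⟩
  · rintro ⟨E', hL', hS'⟩
    have hP' := free_of_steiner hr hL' hS'
    refine le_antisymm h1 ?_
    rw [← (bound hr hL' hP').2.2 hS']
    exact_mod_cast le_exLin hL' hP'

end Pool.Agent.Results.MP_d43ba4_co.LinearPathFour
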